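import Mathlib
import Pool.Agent.Helper798.FSeq.Defs
import Pool.Agent.Helper798.FSeq.Affine
import Pool.Agent.Helper798.FSeq.Counts
import Pool.Agent.Helper798.FSeq.Grp
import Pool.Agent.Helper798.FSeq.Final
import Pool.Agent.Y28.FS.Low
import Pool.Agent.Y28.FS.Fin
import Pool.Agent.Y28.FS.Hyp

set_option autoImplicit false

namespace Pool.Agent.Results.MP_3f2714_al.HighlyTransitiveFactors

open Pool.Agent.Helper798.FSeq

universe u v

/-- The countably infinite vector space over the field with two elements. -/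
abbrev V2 : Type := ℕ →₀ ZMod 2

theorem V2_add (x : V2) : x + x = 0 := by
  ext i
  exact CharTwo.add_self_eq_zero (x i)

theorem aff_iff {n : ℕ} (x y : Fin n ↪ V2) :
    (∃ g ∈ affGroup V2, ∀ i, g (x i) = y i) ↔ code x = code y := by
  constructor
  · exact code_inv (G := affGroup V2) V2_add (fun g hg => hg) x y
  · intro h
    exact homog V2_add x y h

theorem aff_count (n : ℕ) : orbitCount (affGroup V2) n = (CS V2 n).ncard :=
  orbitCount_eq _ (fun x y => aff_iff x y)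

theorem aff_pos (n : ℕ) : orbitCount (affGroup V2) n ≠ 0 := by
  rw [aff_count]
  exact ((Set.ncard_pos (Set.toFinite _)).2 (CS_nonempty (X := V2) n)).ne'

theorem aff_oligo : Oligomorphic (affGroup V2) := by
  apply oligo_of_inj
  intro n
  exact finite_of_ne_zero (aff_pos n)

theorem aff_prim : Primitive (affGroup V2) := by
  have h1 : ∀ n, n ≤ 3 → ∀ x y : Fin n ↪ V2, ∃ g ∈ affGroup V2, ∀ i, g (x i) = y i := by
    intro n hn x y
    rw [aff_iff, code_small V2_add hn, code_small V2_add hn]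
  apply primitive_of_two
  · intro x y
    obtain ⟨g, hg, h⟩ := h1 1 (by norm_num) ⟨fun _ => x, fun _ _ _ => Subsingleton.elim _ _⟩
      ⟨fun _ => y, fun _ _ _ => Subsingleton.elim _ _⟩
    exact ⟨g, hg, h 0⟩
  · intro x y x' y' hxy hxy'
    obtain ⟨g, hg, h⟩ := h1 2 (by norm_num) ⟨![x, y], by
      intro i j hij
      fin_cases i <;> fin_cases j <;> simp_all [eq_comm]⟩ ⟨![x', y'], by
      intro i j hij
      fin_cases i <;> fin_cases j <;> simp_all [eq_comm]⟩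
    exact ⟨g, hg, h 0, h 1⟩

/-- The general obstruction. -/
theorem obstruction {k : ℕ} (hk : 6 ≤ k) {Ω₂ : Type v} {G₂ : Subgroup (Equiv.Perm Ω₂)}
    (h1 : ∀ n, 1 ≤ n → n ≤ k → orbitCount G₂ n = 1) (h2 : 2 ≤ orbitCount G₂ (k + 1))
    (h3 : orbitCount G₂ (k + 2) ≠ 0) {Ω : Type u} [Infinite Ω] {G : Subgroup (Equiv.Perm Ω)}
    (hG : ∀ n, 1 ≤ n → n ≤ k + 2 → orbitCount G n = orbitCount (affGroup V2) n * orbitCount G₂ n) :
    (orbitCount G₂ (k + 1) - 1) * orbitCount (affGroup V2) (k + 1) *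
        ((orbitCount G₂ (k + 1) - 1) * orbitCount (affGroup V2) (k + 1) - 1) ≤
      orbitCount (affGroup V2) (k + 2) * orbitCount G₂ (k + 2) := by
  have hsmall : ∀ n, 1 ≤ n → n ≤ k → orbitCount G n = (CS V2 n).ncard := by
    intro n h4 h5
    rw [hG n h4 (by omega), aff_count, h1 n h4 h5, mul_one]
  have hp : ∀ n, (CS V2 n).ncard ≠ 0 := by
    intro n
    have := aff_pos n
    rwa [aff_count] at this
  have h3' : orbitCount G 3 = 1 := by
    rw [hsmall 3 (by norm_num) (by omega), CS_small V2_add le_rfl]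
  have h4 : orbitCount G 4 = 2 := by
    rw [hsmall 4 (by norm_num) (by omega), CS_four V2_add]
  have h5 : orbitCount G 5 ≤ 6 := by
    rw [hsmall 5 (by norm_num) (by omega)]
    exact CS_five V2_add
  have h5' : orbitCount G 5 ≠ 0 := by
    rw [hsmall 5 (by norm_num) (by omega)]
    exact hp 5
  have h6 : orbitCount G 6 ≤ 32 := by
    rw [hsmall 6 (by norm_num) (by omega)]
    exact CS_six V2_add
  have h6' : orbitCount G 6 ≠ 0 := by
    rw [hsmall 6 (by norm_num) (by omega)]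
    exact hp 6
  obtain ⟨inst, hX, haff⟩ := exists_group h3' h4 h5 h5' h6 h6'
  have hE : ∀ n, orbitCount (affGroup V2) n = (CS Ω n).ncard := by
    intro n
    rw [aff_count, CS_eq V2_add hX]
  have h7 := Pool.Agent.Y28.FS.final_bound (Ω := Ω) (G := G) k (orbitCount G₂ (k + 1)) h2 hX haff
    (by rw [hsmall k (by omega) le_rfl, CS_eq V2_add hX])
    (by rw [hG (k + 1) (by omega) (by omega), hE])
    (by
      rw [hG (k + 2) (by omega) le_rfl]
      exact Nat.mul_ne_zero (aff_pos _) h3)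
  rw [hE (k + 1), ← hG (k + 2) (by omega) le_rfl]
  exact h7

/-- The numerical condition. -/
theorem numeric {k : ℕ} (hk : 10 ≤ k) {f F : ℕ} (hf : 2 ≤ f)
    (hF : F ≤ 2 ^ (k ^ 2 / 4 - k - 3) * (f - 1) ^ 2) :
    orbitCount (affGroup V2) (k + 2) * F <
      (f - 1) * orbitCount (affGroup V2) (k + 1) *
        ((f - 1) * orbitCount (affGroup V2) (k + 1) - 1) := by
  obtain ⟨m, rfl⟩ : ∃ m, f = m + 2 := ⟨f - 2, by omega⟩
  have e1 : m + 2 - 1 = m + 1 := rfl
  rw [e1] at hF ⊢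
  rw [aff_count, aff_count]
  have h1 := Pool.Agent.Y28.FS.CS_bound k hk V2 V2_add
  have h2 := CS_succ (X := V2) V2_add (k + 1)
  set N := (CS V2 (k + 1)).ncard with hN
  set A := 2 ^ (k + 1) + 1 with hA
  set B := 2 ^ (k ^ 2 / 4 - k - 3) with hB
  have hNpos : 0 < N := by omega
  have h3 : (CS V2 (k + 2)).ncard * F ≤ (N * A) * (B * (m + 1) ^ 2) := Nat.mul_le_mul h2 hF
  have h4 : (m + 1) * N - 1 + 1 = (m + 1) * N := by
    have : 0 < (m + 1) * N := Nat.mul_pos (by omega) hNpos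
    omega
  refine lt_of_le_of_lt h3 ?_
  have h5 : (N * A) * (B * (m + 1) ^ 2) = (m + 1) * N * ((m + 1) * (A * B)) := by ring
  rw [h5]
  apply Nat.mul_lt_mul_of_pos_left _ (Nat.mul_pos (by omega) hNpos)
  have h6 : (m + 1) * (A * B + 2) ≤ (m + 1) * N := Nat.mul_le_mul_left _ (by omega)
  have h7 : (m + 1) * (A * B + 2) = (m + 1) * (A * B) + 2 * (m + 1) := by ring
  omega

/-- Random coloured hypergraphs. -/
theorem exists_group_two (k f : ℕ) (hk : 2 ≤ k) (hf : 1 ≤ f) :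
    ∃ G₂ : Subgroup (Equiv.Perm ℕ), Primitive G₂ ∧ Oligomorphic G₂ ∧
      (∀ n, 1 ≤ n → n ≤ k → orbitCount G₂ n = 1) ∧ orbitCount G₂ (k + 1) = f ∧
      orbitCount G₂ (k + 2) ≠ 0 ∧ orbitCount G₂ (k + 2) ≤ f ^ (k + 2) := by
  obtain ⟨m, rfl⟩ : ∃ m, f = m + 1 := ⟨f - 1, by omega⟩
  obtain ⟨E, hE⟩ := Pool.Agent.Y28.FS.exists_cExt (C := Fin (m + 1))
  refine ⟨Pool.Agent.Y28.FS.hypGroup k E, Pool.Agent.Y28.FS.hyp_prim hk hE,
    Pool.Agent.Y28.FS.hyp_oligo hE, fun n _ hn => Pool.Agent.Y28.FS.hyp_small hE (by omega), ?_,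
    (Pool.Agent.Y28.FS.hyp_pos hE _).ne', ?_⟩
  · rw [Pool.Agent.Y28.FS.hyp_one hE, Nat.card_eq_fintype_card, Fintype.card_fin]
  · have := Pool.Agent.Y28.FS.hyp_two (k := k) hE
    rwa [Nat.card_eq_fintype_card, Fintype.card_fin] at this

/-- The numerical condition for random hypergraphs with `f` colours. -/
theorem colours {k f : ℕ} (hf : 2 ≤ f) (hk : 4 * Nat.clog 2 f + 6 ≤ k) :
    f ^ (k + 2) ≤ 2 ^ (k ^ 2 / 4 - k - 3) * (f - 1) ^ 2 := by
  set a := Nat.clog 2 f with ha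
  have h1 : f ≤ 2 ^ a := Nat.le_pow_clog (by norm_num) f
  have h2 : a * (k + 2) ≤ k ^ 2 / 4 - k - 3 := by
    have h3 : a * (k + 2) + k + 3 ≤ k ^ 2 / 4 := by
      rw [Nat.le_div_iff_mul_le (by norm_num)]
      obtain ⟨j, rfl⟩ : ∃ j, k = 4 * a + 6 + j := ⟨k - (4 * a + 6), by omega⟩
      nlinarith
    omega
  have h4 : 1 ≤ (f - 1) ^ 2 := Nat.one_le_pow _ _ (by omega)
  calc f ^ (k + 2) ≤ (2 ^ a) ^ (k + 2) := Nat.pow_le_pow_left h1 _
    _ = 2 ^ (a * (k + 2)) := by rw [pow_mul]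
    _ ≤ 2 ^ (k ^ 2 / 4 - k - 3) := Nat.pow_le_pow_right (by norm_num) h2
    _ = 2 ^ (k ^ 2 / 4 - k - 3) * 1 := by rw [mul_one]
    _ ≤ 2 ^ (k ^ 2 / 4 - k - 3) * (f - 1) ^ 2 := Nat.mul_le_mul_left _ h4

/-- Let `G₁` be the affine group of the countably infinite vector space over the field with two
elements; it is primitive and oligomorphic.

(1) Let `k ≥ 10` and let `G₂` be any permutation group which is transitive on `n`-tuples of distinct
points for `n ≤ k`, but not for `n = k + 1`, with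
`0 < F_{k+2}(G₂) ≤ 2^{⌊k²/4⌋ - k - 3} (F_{k+1}(G₂) - 1)²`. Then no permutation group `G` on an
infinite set satisfies `F_n(G) = F_n(G₁) F_n(G₂)` for all `1 ≤ n ≤ k + 2`.

(2) For every `f ≥ 2` and every `k ≥ 4⌈log₂ f⌉ + 6` there is such a group `G₂` on `ℕ` which is
primitive and oligomorphic and has `F_{k+1}(G₂) = f`. -/
theorem result :
    (Countable V2 ∧ Infinite V2 ∧ Primitive (affGroup V2) ∧ Oligomorphic (affGroup V2)) ∧
    (∀ k : ℕ, 10 ≤ k → ∀ (Ω₂ : Type v) (G₂ : Subgroup (Equiv.Perm Ω₂)),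
      (∀ n, 1 ≤ n → n ≤ k → orbitCount G₂ n = 1) → 2 ≤ orbitCount G₂ (k + 1) →
      orbitCount G₂ (k + 2) ≠ 0 →
      orbitCount G₂ (k + 2) ≤ 2 ^ (k ^ 2 / 4 - k - 3) * (orbitCount G₂ (k + 1) - 1) ^ 2 →
      ∀ (Ω : Type u) [Infinite Ω] (G : Subgroup (Equiv.Perm Ω)),
        ∃ n, 1 ≤ n ∧ n ≤ k + 2 ∧
          orbitCount G n ≠ orbitCount (affGroup V2) n * orbitCount G₂ n) ∧
    (∀ f k : ℕ, 2 ≤ f → 4 * Nat.clog 2 f + 6 ≤ k →
      ∃ G₂ : Subgroup (Equiv.Perm ℕ), Primitive G₂ ∧ Oligomorphic G₂ ∧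
        (∀ n, 1 ≤ n → n ≤ k → orbitCount G₂ n = 1) ∧ orbitCount G₂ (k + 1) = f ∧
        ∀ (Ω : Type u) [Infinite Ω] (G : Subgroup (Equiv.Perm Ω)),
          ∃ n, 1 ≤ n ∧ n ≤ k + 2 ∧
            orbitCount G n ≠ orbitCount (affGroup V2) n * orbitCount G₂ n) := by
  refine ⟨⟨inferInstance, inferInstance, aff_prim, aff_oligo⟩, ?_, ?_⟩
  · intro k hk Ω₂ G₂ h1 h2 h3 h4 Ω _ G
    by_contra hcon
    push Not at hcon
    exact absurd (obstruction (by omega) h1 h2 h3 (fun n hn hn' => hcon n hn hn'))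
      (not_le.2 (numeric hk h2 h4))
  · intro f k hf hk
    have hc : 1 ≤ Nat.clog 2 f := Nat.clog_pos (by norm_num) hf
    obtain ⟨G₂, hp, ho, h1, h2, h3, h4⟩ := exists_group_two k f (by omega) (by omega)
    refine ⟨G₂, hp, ho, h1, h2, ?_⟩
    intro Ω _ G
    by_contra hcon
    push Not at hcon
    have h5 := obstruction (k := k) (by omega) h1 (by rw [h2]; exact hf) h3
      (fun n hn hn' => hcon n hn hn')
    rw [h2] at h5
    exact absurd h5 (not_le.2 (numeric (by omega) hf (h4.trans (colours hf hk))))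

end Pool.Agent.Results.MP_3f2714_al.HighlyTransitiveFactors
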